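import Mathlib

/-!
MP_e5cfa3_pr, upper bound of the small ball exponent: general Gaussian lemmas.
`gam ι` is the law of a finite family of independent standard normal variables.
-/

set_option autoImplicit false

open MeasureTheory ProbabilityTheory Finset

namespace Pool.Agent.Helper82.SH

/-- independent standard normal variables -/
noncomputable def gam (ι : Type*) [Fintype ι] : Measure (ι → ℝ) :=
  Measure.pi (fun _ : ι => gaussianReal 0 1)

instance (ι : Type*) [Fintype ι] : IsProbabilityMeasure (gam ι) := by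
  unfold gam; infer_instance

/-- one variable: scaling down is absolutely bounded by the density at most `1 / s` -/
theorem gauss_scale {s : ℝ} (h0 : 0 < s) (h1 : s ≤ 1) (A : Set ℝ) :
    ((gaussianReal 0 1).map (fun x => s * x)) A ≤ ENNReal.ofReal (1 / s) * gaussianReal 0 1 A := by
  obtain ⟨v, hvs⟩ : ∃ v : NNReal, (v : ℝ) = s ^ 2 := ⟨NNReal.mk (s ^ 2) (sq_nonneg s), rfl⟩
  have hm : (gaussianReal 0 1).map (fun x => s * x) = gaussianReal 0 v := by
    have h := gaussianReal_map_const_mul (μ := 0) (v := 1) s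
    have hv' : NNReal.mk (s ^ 2) (sq_nonneg s) * 1 = v := by
      apply NNReal.coe_injective
      rw [hvs, mul_one]; rfl
    rw [hv', mul_zero] at h
    exact h
  rw [hm]
  have hv : v ≠ 0 := by
    intro h
    rw [h] at hvs
    have : s ^ 2 = 0 := by rw [← hvs]; rfl
    have := pow_pos h0 2
    linarith
  have hle : gaussianReal 0 v ≤ ENNReal.ofReal (1 / s) • gaussianReal 0 1 := by
    rw [gaussianReal_of_var_ne_zero _ hv, gaussianReal_of_var_ne_zero _ one_ne_zero,
      ← withDensity_smul _ (measurable_gaussianPDF 0 1)]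
    refine withDensity_mono (Filter.Eventually.of_forall fun x => ?_)
    simp only [Pi.smul_apply, smul_eq_mul, gaussianPDF]
    rw [← ENNReal.ofReal_mul (by positivity)]
    refine ENNReal.ofReal_le_ofReal ?_
    simp only [gaussianPDFReal, hvs, NNReal.coe_one, sub_zero, mul_one]
    have e1 : Real.sqrt (2 * Real.pi * s ^ 2) = Real.sqrt (2 * Real.pi) * s := by
      rw [Real.sqrt_mul (by positivity), Real.sqrt_sq h0.le]
    rw [e1]
    have e2 : Real.exp (-x ^ 2 / (2 * s ^ 2)) ≤ Real.exp (-x ^ 2 / 2) := by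
      refine Real.exp_le_exp.2 ?_
      rw [neg_div, neg_div, neg_le_neg_iff]
      refine div_le_div_of_nonneg_left (sq_nonneg x) (by positivity) ?_
      nlinarith
    calc (Real.sqrt (2 * Real.pi) * s)⁻¹ * Real.exp (-x ^ 2 / (2 * s ^ 2))
        ≤ (Real.sqrt (2 * Real.pi) * s)⁻¹ * Real.exp (-x ^ 2 / 2) :=
          mul_le_mul_of_nonneg_left e2 (by positivity)
      _ = 1 / s * ((Real.sqrt (2 * Real.pi))⁻¹ * Real.exp (-x ^ 2 / 2)) := by
          rw [mul_inv]; ring
  have := hle A
  simpa using this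

/-- products of measures are monotone, with constants -/
theorem pi_le_smul {ι : Type*} [Fintype ι] {μ ν : ι → Measure ℝ} [∀ i, SigmaFinite (μ i)]
    [∀ i, SigmaFinite (ν i)] {c : ι → ENNReal} (hc : ∀ i, c i ≠ ⊤) (hc0 : ∀ i, c i ≠ 0)
    (h : ∀ i, ∀ A, μ i A ≤ c i * ν i A) {A : Set (ι → ℝ)} (hA : MeasurableSet A) :
    Measure.pi μ A ≤ (∏ i, c i) * Measure.pi ν A := by
  have hP : (∏ i, c i) ≠ ⊤ := ENNReal.prod_ne_top fun i _ => hc i
  have hP0 : (∏ i, c i) ≠ 0 := Finset.prod_ne_zero_iff.2 fun i _ => hc0 i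
  have h1 : ((∏ i, c i)⁻¹ • Measure.pi μ).toOuterMeasure ≤
      OuterMeasure.pi (fun i => (ν i).toOuterMeasure) := by
    rw [OuterMeasure.le_pi]
    intro s _
    have e1 : ((∏ i, c i)⁻¹ • Measure.pi μ).toOuterMeasure (Set.univ.pi s) =
        (∏ i, c i)⁻¹ * ∏ i, μ i (s i) := by
      change ((∏ i, c i)⁻¹ • Measure.pi μ) (Set.univ.pi s) = _
      rw [Measure.smul_apply, Measure.pi_pi, smul_eq_mul]
    rw [e1]
    have e2 : ∏ i, μ i (s i) ≤ (∏ i, c i) * ∏ i, ν i (s i) := by
      rw [← Finset.prod_mul_distrib]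
      exact Finset.prod_le_prod' fun i _ => h i (s i)
    calc (∏ i, c i)⁻¹ * ∏ i, μ i (s i) ≤ (∏ i, c i)⁻¹ * ((∏ i, c i) * ∏ i, ν i (s i)) := by
          gcongr
      _ = ∏ i, ν i (s i) := by
          rw [← mul_assoc, ENNReal.inv_mul_cancel hP0 hP, one_mul]
      _ = _ := rfl
  have h2 := h1 A
  have e3 : OuterMeasure.pi (fun i => (ν i).toOuterMeasure) A = Measure.pi ν A := by
    rw [Measure.pi_def, toMeasure_apply _ _ hA]
  rw [e3] at h2
  have h3 : (∏ i, c i)⁻¹ * Measure.pi μ A ≤ Measure.pi ν A := h2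
  calc Measure.pi μ A = (∏ i, c i) * ((∏ i, c i)⁻¹ * Measure.pi μ A) := by
        rw [← mul_assoc, ENNReal.mul_inv_cancel hP0 hP, one_mul]
    _ ≤ _ := by gcongr

/-- **Density comparison.** -/
theorem scale_le {ι : Type*} [Fintype ι] {s : ι → ℝ} (h0 : ∀ i, 0 < s i) (h1 : ∀ i, s i ≤ 1)
    {A : Set (ι → ℝ)} (hA : MeasurableSet A) :
    (∏ i, s i) * (gam ι {g | (fun i => s i * g i) ∈ A}).toReal ≤ (gam ι A).toReal := by
  have hprob : ∀ i, IsProbabilityMeasure ((gaussianReal 0 1).map (fun x => s i * x)) := fun i =>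
    Measure.isProbabilityMeasure_map (measurable_const_mul (s i)).aemeasurable
  have hmeas : Measurable (fun (g : ι → ℝ) i => s i * g i) :=
    measurable_pi_lambda _ fun i => (measurable_const_mul (s i)).comp (measurable_pi_apply i)
  have hmap : (gam ι).map (fun g i => s i * g i) =
      Measure.pi (fun i => (gaussianReal 0 1).map (fun x => s i * x)) :=
    Measure.pi_map_pi (μ := fun _ : ι => gaussianReal 0 1) (f := fun i x => s i * x)
      (fun i => (measurable_const_mul (s i)).aemeasurable)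
  have e1 : gam ι {g | (fun i => s i * g i) ∈ A} = (gam ι).map (fun g i => s i * g i) A := by
    rw [Measure.map_apply hmeas hA]; rfl
  have h2 := pi_le_smul (μ := fun i => (gaussianReal 0 1).map (fun x => s i * x))
    (ν := fun _ => gaussianReal 0 1) (c := fun i => ENNReal.ofReal (1 / s i))
    (fun i => ENNReal.ofReal_ne_top) (fun i => by
      have := one_div_pos.2 (h0 i)
      simpa using this) (fun i B => gauss_scale (h0 i) (h1 i) B) hA
  rw [← hmap, ← e1] at h2
  have hp : 0 < ∏ i, s i := Finset.prod_pos fun i _ => h0 i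
  have h3 : (gam ι {g | (fun i => s i * g i) ∈ A}).toReal ≤ (∏ i, (1 / s i)) * (gam ι A).toReal := by
    have h4 := ENNReal.toReal_mono (by
      refine ENNReal.mul_ne_top (ENNReal.prod_ne_top fun i _ => ENNReal.ofReal_ne_top) ?_
      exact measure_ne_top _ _) h2
    rw [ENNReal.toReal_mul, ENNReal.toReal_prod] at h4
    refine h4.trans (le_of_eq ?_)
    congr 1
    refine Finset.prod_congr rfl fun i _ => ENNReal.toReal_ofReal (by have := h0 i; positivity)
  calc (∏ i, s i) * (gam ι {g | (fun i => s i * g i) ∈ A}).toReal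
      ≤ (∏ i, s i) * ((∏ i, (1 / s i)) * (gam ι A).toReal) := by gcongr
    _ = (gam ι A).toReal := by
        rw [← mul_assoc, ← Finset.prod_mul_distrib]
        rw [Finset.prod_congr rfl fun i _ => mul_one_div_cancel (h0 i).ne', Finset.prod_const_one, one_mul]

theorem integrable_exp_lin {ι : Type*} [Fintype ι] (a : ι → ℝ) :
    Integrable (fun g : ι → ℝ => Real.exp (∑ i, a i * g i)) (gam ι) := by
  have h : (fun g : ι → ℝ => Real.exp (∑ i, a i * g i)) = fun g => ∏ i, Real.exp (a i * g i) := by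
    funext g
    exact Real.exp_sum _ _
  rw [h]
  exact Integrable.fintype_prod (f := fun i x => Real.exp (a i * x))
    (fun i => integrable_exp_mul_gaussianReal (a i))

theorem integral_exp_lin {ι : Type*} [Fintype ι] (a : ι → ℝ) :
    ∫ g, Real.exp (∑ i, a i * g i) ∂(gam ι) = Real.exp ((∑ i, a i ^ 2) / 2) := by
  have h : (fun g : ι → ℝ => Real.exp (∑ i, a i * g i)) = fun g => ∏ i, Real.exp (a i * g i) := by
    funext g
    exact Real.exp_sum _ _
  rw [h]
  unfold gam
  rw [MeasureTheory.integral_fintype_prod_eq_prod (f := fun i x => Real.exp (a i * x))]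
  have h1 : ∀ i, ∫ x, Real.exp (a i * x) ∂(gaussianReal 0 1) = Real.exp (a i ^ 2 / 2) := by
    intro i
    have := mgf_gaussianReal (p := gaussianReal 0 1) (X := id) (μ := 0) (v := 1)
      (by rw [Measure.map_id]) (a i)
    simpa [mgf] using this
  rw [Finset.prod_congr rfl fun i _ => h1 i, ← Real.exp_sum, Finset.sum_div]

/-- one sided tail -/
theorem tail_one {ι : Type*} [Fintype ι] (a : ι → ℝ) {v t : ℝ} (hv : ∑ i, a i ^ 2 ≤ v) (hv0 : 0 < v)
    (ht : 0 ≤ t) :
    (gam ι {g | t ≤ ∑ i, a i * g i}).toReal ≤ Real.exp (-(t ^ 2 / (2 * v))) := by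
  have hl : 0 ≤ t / v := by positivity
  have h1 := measure_ge_le_exp_mul_mgf (μ := gam ι) (X := fun g => ∑ i, a i * g i) t (t := t / v) hl
    (by
      have := integrable_exp_lin (fun i => t / v * a i)
      refine this.congr (Filter.Eventually.of_forall fun g => ?_)
      simp only [Finset.mul_sum, mul_assoc])
  have h2 : mgf (fun g : ι → ℝ => ∑ i, a i * g i) (gam ι) (t / v) =
      Real.exp ((∑ i, (t / v * a i) ^ 2) / 2) := by
    rw [← integral_exp_lin]
    unfold mgf
    refine integral_congr_ae (Filter.Eventually.of_forall fun g => ?_)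
    simp only [Finset.mul_sum, mul_assoc]
  rw [h2, ← Real.exp_add] at h1
  refine h1.trans (Real.exp_le_exp.2 ?_)
  have h3 : ∑ i, (t / v * a i) ^ 2 = (t / v) ^ 2 * ∑ i, a i ^ 2 := by
    rw [Finset.mul_sum]
    exact Finset.sum_congr rfl fun i _ => by ring
  rw [h3]
  have h4 : (t / v) ^ 2 * ∑ i, a i ^ 2 ≤ (t / v) ^ 2 * v := by gcongr
  have h5 : (t / v) ^ 2 * v = t ^ 2 / v := by field_simp
  have h6 : t / v * t = t ^ 2 / v := by ring
  have h7 : t ^ 2 / (2 * v) = t ^ 2 / v / 2 := by field_simp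
  rw [h7]
  nlinarith

/-- two sided tail -/
theorem tail_two {ι : Type*} [Fintype ι] (a : ι → ℝ) {v t : ℝ} (hv : ∑ i, a i ^ 2 ≤ v) (hv0 : 0 < v)
    (ht : 0 ≤ t) :
    (gam ι {g | t < |∑ i, a i * g i|}).toReal ≤ 2 * Real.exp (-(t ^ 2 / (2 * v))) := by
  have h1 := tail_one a hv hv0 ht
  have h2 := tail_one (fun i => - a i) (by simpa using hv) hv0 ht
  have hsub : {g : ι → ℝ | t < |∑ i, a i * g i|} ⊆
      {g | t ≤ ∑ i, a i * g i} ∪ {g | t ≤ ∑ i, - a i * g i} := by
    intro g hg
    simp only [Set.mem_ofPred_eq, Set.mem_union] at hg ⊢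
    rcases lt_abs.1 hg with h | h
    · exact Or.inl h.le
    · right
      have : ∑ i, - a i * g i = - ∑ i, a i * g i := by
        rw [← Finset.sum_neg_distrib]
        exact Finset.sum_congr rfl fun i _ => by ring
      rw [this]
      exact h.le
  have h3 := (measure_mono hsub).trans (measure_union_le (μ := gam ι) _ _)
  have h4 := ENNReal.toReal_mono (by
    exact ENNReal.add_ne_top.2 ⟨measure_ne_top _ _, measure_ne_top _ _⟩) h3
  rw [ENNReal.toReal_add (measure_ne_top _ _) (measure_ne_top _ _)] at h4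
  linarith

end Pool.Agent.Helper82.SH
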